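import Mathlib
import Pool.Agent.D0H34.KC.Stm

/-! # Project KC, module GQ: a simple root at zero modulo `q` -/

set_option autoImplicit false

namespace Pool.Agent.D0H20.KC

open Polynomial
open Pool.Agent.D0H34.KC (pol)

theorem eval_pol {k : ℕ} (a : Fin k → ℤ) (g : ℤ[X]) (c : ℤ) :
    (pol a g c).eval 0 = (∏ i, (X - C (a i)) : ℤ[X]).eval 0 * g.coeff 0 + c := by
  unfold pol
  rw [eval_add, eval_mul, eval_C, ← coeff_zero_eq_eval_zero g]

theorem eval_deriv_pol {k : ℕ} (a : Fin k → ℤ) (g : ℤ[X]) (c : ℤ) :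
    (pol a g c).derivative.eval 0 =
      (derivative (∏ i, (X - C (a i)) : ℤ[X])).eval 0 * g.coeff 0 +
      (∏ i, (X - C (a i)) : ℤ[X]).eval 0 * g.coeff 1 := by
  unfold pol
  rw [derivative_add, derivative_C, add_zero, derivative_mul, eval_add, eval_mul, eval_mul,
    ← coeff_zero_eq_eval_zero g, ← coeff_zero_eq_eval_zero (derivative g), coeff_derivative]
  simp

theorem t_GQ : Pool.Agent.D0H34.KC.S_GQ := by
  intro k d q a c hq hd ha
  have hqp : Prime (q : ℤ) := Nat.prime_iff_prime_int.1 hq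
  set A : ℤ[X] := ∏ i, (X - C (a i)) with hA
  have hA0 : A.eval 0 = ∏ i, (-(a i)) := by
    rw [hA, eval_prod]
    refine Finset.prod_congr rfl fun i _ => ?_
    rw [eval_sub, eval_X, eval_C, zero_sub]
  have hnd : ¬ (q : ℤ) ∣ A.eval 0 := by
    rw [hA0, hqp.dvd_finsetProd_iff]
    rintro ⟨i, _, hi⟩
    exact ha i ((dvd_neg).1 hi)
  have hcop : IsCoprime (A.eval 0) (q : ℤ) := ((hqp.coprime_iff_not_dvd).2 hnd).symm
  obtain ⟨u, v, huv⟩ := hcop
  let G : ℕ → ℤ := fun j => if j = 0 then -c * u else u * (1 - (derivative A).eval 0 * (-c * u))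
  refine ⟨G, fun g _ hgd hg => ?_⟩
  have h0 : g.coeff 0 ≡ -c * u [ZMOD q] := by
    have := hg 0 (by omega)
    simpa [G] using this
  have h1 : g.coeff 1 ≡ u * (1 - (derivative A).eval 0 * (-c * u)) [ZMOD q] := by
    have := hg 1 (by omega)
    simpa [G] using this
  constructor
  · rw [eval_pol, ← hA]
    apply Int.modEq_zero_iff_dvd.1
    calc A.eval 0 * g.coeff 0 + c ≡ A.eval 0 * (-c * u) + c [ZMOD q] :=
          (h0.mul_left _).add_right _
      _ = q * (c * v) := by linear_combination (-c) * huv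
      _ ≡ 0 [ZMOD q] := Int.modEq_zero_iff_dvd.2 (dvd_mul_right _ _)
  · rw [eval_deriv_pol, ← hA]
    intro h2
    have h3 : (derivative A).eval 0 * g.coeff 0 + A.eval 0 * g.coeff 1 ≡ 1 [ZMOD q] := by
      calc (derivative A).eval 0 * g.coeff 0 + A.eval 0 * g.coeff 1
          ≡ (derivative A).eval 0 * (-c * u) +
            A.eval 0 * (u * (1 - (derivative A).eval 0 * (-c * u))) [ZMOD q] :=
          (h0.mul_left _).add (h1.mul_left _)
        _ = 1 + q * (-v * (1 - (derivative A).eval 0 * (-c * u))) := by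
          linear_combination (1 - (derivative A).eval 0 * (-c * u)) * huv
        _ ≡ 1 + 0 [ZMOD q] := (Int.ModEq.refl 1).add (Int.modEq_zero_iff_dvd.2 (dvd_mul_right _ _))
        _ = 1 := add_zero 1
    have h4 : (q : ℤ) ∣ 1 := by
      have h5 := (Int.modEq_zero_iff_dvd.2 h2).symm.trans h3
      exact Int.modEq_zero_iff_dvd.1 h5.symm
    exact hqp.not_isUnit (isUnit_of_dvd_one h4)

end Pool.Agent.D0H20.KC
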